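import Mathlib

/-!
# MP_25f285_al : a bounded metric-functional for a quasi-Cayley metric on `ℤ`

`d x y = ⌈ρ (x - y)⌉`, `ρ t = sup_j min ((1 + 2^{-j}) |t|) (4^j + 2^j)`.
-/

set_option autoImplicit false

open Filter Topology

namespace Pool.Agent.Results.MP_25f285_al.BoundedFunctional

/-- The word metric: least length of a word in `S` representing `x⁻¹ y`. -/
noncomputable def wordDist {G : Type} [Group G] (S : Finset G) (x y : G) : ℕ :=
  sInf {n : ℕ | ∃ l : List G, l.length = n ∧ (∀ s ∈ l, s ∈ S) ∧ l.prod = x⁻¹ * y}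

/-- `d` is an integer valued, left-invariant, proper metric on `G`. -/
structure IsAdmissible {G : Type} [Group G] (d : G → G → ℝ) : Prop where
  nonneg : ∀ x y, 0 ≤ d x y
  eq_zero_iff : ∀ x y, d x y = 0 ↔ x = y
  symm : ∀ x y, d x y = d y x
  triangle : ∀ x y z, d x z ≤ d x y + d y z
  integer : ∀ x y, ∃ n : ℤ, d x y = n
  invariant : ∀ g x y, d (g * x) (g * y) = d x y
  proper : ∀ (x : G) (r : ℝ), {y | d x y ≤ r}.Finite

/-- `d` is quasi-isometric (by the identity) to the Cayley metric of `S`. -/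
def IsQuasiCayley {G : Type} [Group G] (S : Finset G) (d : G → G → ℝ) : Prop :=
  ∃ C : ℝ, 1 ≤ C ∧ ∀ x y, C⁻¹ * wordDist S x y - C ≤ d x y ∧ d x y ≤ C * wordDist S x y + C

/-- `f` is a metric-functional: a pointwise limit of the functions `y ↦ d(x_n, y) - d(x_n, e)`
along a sequence that eventually leaves every finite subset of `G`. -/
def IsMetricFunctional {G : Type} [Group G] (d : G → G → ℝ) (f : G → ℝ) : Prop :=
  ∃ x : ℕ → G, (∀ F : Finset G, ∀ᶠ n in atTop, x n ∉ F) ∧
    ∀ y, Tendsto (fun n => d (x n) y - d (x n) 1) atTop (𝓝 (f y))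

/-! ### the function `ρ` -/

/-- the pieces -/
noncomputable def piece (j : ℕ) (t : ℝ) : ℝ := min ((1 + (1 / 2) ^ j) * |t|) (4 ^ j + 2 ^ j)

noncomputable def ρ (t : ℝ) : ℝ := ⨆ j : ℕ, piece j t

lemma half_pow_le (j : ℕ) : ((1 : ℝ) / 2) ^ j ≤ 1 := pow_le_one₀ (by norm_num) (by norm_num)
lemma half_pow_pos (j : ℕ) : 0 < ((1 : ℝ) / 2) ^ j := by positivity

lemma piece_le (j : ℕ) (t : ℝ) : piece j t ≤ 2 * |t| := by
  refine (min_le_left _ _).trans (mul_le_mul_of_nonneg_right ?_ (abs_nonneg t))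
  have := half_pow_le j
  linarith

lemma bdd (t : ℝ) : BddAbove (Set.range fun j => piece j t) :=
  ⟨2 * |t|, by rintro _ ⟨j, rfl⟩; exact piece_le j t⟩

lemma ρ_le (t : ℝ) : ρ t ≤ 2 * |t| := ciSup_le fun j => piece_le j t

lemma le_ρ (t : ℝ) : |t| ≤ ρ t := by
  obtain ⟨j, hj⟩ := pow_unbounded_of_one_lt |t| (show (1 : ℝ) < 4 by norm_num)
  refine le_trans ?_ (le_ciSup (bdd t) j)
  apply le_min
  · have := half_pow_pos j
    nlinarith [abs_nonneg t]
  · have : (0 : ℝ) < 2 ^ j := by positivity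
    linarith

lemma piece_neg (j : ℕ) (t : ℝ) : piece j (-t) = piece j t := by simp [piece]

lemma ρ_neg (t : ℝ) : ρ (-t) = ρ t := by simp [ρ, piece_neg]

lemma min_add_le {a b c : ℝ} (ha : 0 ≤ a) (hb : 0 ≤ b) (hc : 0 ≤ c) :
    min (a + b) c ≤ min a c + min b c := by
  rcases le_total a c with h1 | h1 <;> rcases le_total b c with h2 | h2
  · rw [min_eq_left h1, min_eq_left h2]; exact min_le_left _ _
  · rw [min_eq_right h2]
    have := min_le_right (a + b) c
    have : 0 ≤ min a c := le_min ha (ha.trans h1)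
    linarith
  · rw [min_eq_right h1]
    have := min_le_right (a + b) c
    have : 0 ≤ min b c := le_min hb (hb.trans h2)
    linarith
  · rw [min_eq_right h1, min_eq_right h2]
    have := min_le_right (a + b) c
    linarith

lemma piece_add (j : ℕ) (s t : ℝ) : piece j (s + t) ≤ piece j s + piece j t := by
  unfold piece
  have h0 : 0 ≤ 1 + ((1 : ℝ) / 2) ^ j := by positivity
  refine le_trans ?_ (min_add_le (mul_nonneg h0 (abs_nonneg s)) (mul_nonneg h0 (abs_nonneg t))
    (by positivity))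
  apply min_le_min_right
  rw [← mul_add]
  exact mul_le_mul_of_nonneg_left (abs_add_le s t) h0

lemma ρ_add (s t : ℝ) : ρ (s + t) ≤ ρ s + ρ t :=
  ciSup_le fun j => (piece_add j s t).trans (add_le_add (le_ciSup (bdd s) j) (le_ciSup (bdd t) j))

/-- `ρ` is constant on long intervals. -/
lemma ρ_flat (j : ℕ) {t : ℝ} (h1 : (4 : ℝ) ^ j ≤ t) (h2 : t ≤ 4 ^ j + 2 ^ j / 2 - 1 / 2) :
    ρ t = 4 ^ j + 2 ^ j := by
  have h4 : (0 : ℝ) < 4 ^ j := by positivity
  have h2' : (0 : ℝ) < 2 ^ j := by positivity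
  have ht : 0 ≤ t := h4.le.trans h1
  have e42 : (4 : ℝ) ^ j = 2 ^ j * 2 ^ j := by rw [← mul_pow]; norm_num
  have ehalf : ((1 : ℝ) / 2) ^ j * 2 ^ j = 1 := by rw [← mul_pow]; norm_num
  apply le_antisymm
  · refine ciSup_le fun i => ?_
    rcases le_or_gt i j with hij | hij
    · refine (min_le_right _ _).trans ?_
      exact add_le_add (pow_le_pow_right₀ (by norm_num) hij) (pow_le_pow_right₀ (by norm_num) hij)
    · refine (min_le_left _ _).trans ?_
      rw [abs_of_nonneg ht]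
      have h3 : ((1 : ℝ) / 2) ^ i ≤ (1 / 2) ^ (j + 1) :=
        pow_le_pow_of_le_one (by norm_num) (by norm_num) hij
      rw [pow_succ] at h3
      set a := ((1 : ℝ) / 2) ^ j
      set b := (2 : ℝ) ^ j
      have ha : 0 < a := half_pow_pos j
      calc (1 + (1 / 2) ^ i) * t ≤ (1 + a * (1 / 2)) * t :=
            mul_le_mul_of_nonneg_right (by linarith) ht
        _ ≤ (1 + a * (1 / 2)) * (4 ^ j + b / 2 - 1 / 2) :=
            mul_le_mul_of_nonneg_left h2 (by positivity)
        _ = 4 ^ j + b / 2 - 1 / 2 + (a * b) * b / 2 + (a * b) / 4 - a / 4 := by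
            rw [e42]; ring
        _ ≤ 4 ^ j + b := by rw [ehalf]; linarith
  · refine le_trans ?_ (le_ciSup (bdd t) j)
    apply le_min _ le_rfl
    rw [abs_of_nonneg ht]
    have ha : 0 < ((1 : ℝ) / 2) ^ j := half_pow_pos j
    calc (4 : ℝ) ^ j + 2 ^ j = (1 + (1 / 2) ^ j) * 4 ^ j := by
          rw [e42]; linear_combination (-(2 : ℝ) ^ j) * ehalf
      _ ≤ (1 + (1 / 2) ^ j) * t := mul_le_mul_of_nonneg_left h1 (by positivity)

/-! ### the metric on `ℤ` -/

abbrev Z : Type := Multiplicative ℤ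

/-- the generating set `{1, -1}` -/
def S₀ : Finset Z := {Multiplicative.ofAdd 1, Multiplicative.ofAdd (-1)}

/-- the metric -/
noncomputable def d₀ (x y : Z) : ℝ := (⌈ρ ((x.toAdd - y.toAdd : ℤ) : ℝ)⌉ : ℤ)

lemma list_bound (l : List Z) (hl : ∀ s ∈ l, s ∈ S₀) : |l.prod.toAdd| ≤ l.length := by
  induction l with
  | nil => simp
  | cons a l ih =>
    have h1 := ih fun s hs => hl s (List.mem_cons_of_mem _ hs)
    have h2 := hl a List.mem_cons_self
    rw [List.prod_cons, toAdd_mul, List.length_cons]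
    have h3 : a.toAdd = 1 ∨ a.toAdd = -1 := by
      simp only [S₀, Finset.mem_insert, Finset.mem_singleton] at h2
      rcases h2 with rfl | rfl
      · left; rfl
      · right; rfl
    push_cast
    rw [abs_le] at *
    rcases h3 with h3 | h3 <;> rw [h3] <;> constructor <;> omega

lemma wordDist_eq (x y : Z) : wordDist S₀ x y = (x.toAdd - y.toAdd).natAbs := by
  have hmem : (x.toAdd - y.toAdd).natAbs ∈ {n : ℕ | ∃ l : List Z, l.length = n ∧
      (∀ s ∈ l, s ∈ S₀) ∧ l.prod = x⁻¹ * y} := by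
    rcases le_total x.toAdd y.toAdd with h | h
    · refine ⟨List.replicate _ (Multiplicative.ofAdd 1), List.length_replicate, ?_, ?_⟩
      · intro s hs
        rw [List.eq_of_mem_replicate hs]
        simp [S₀]
      · rw [List.prod_replicate]
        apply Multiplicative.toAdd.injective
        rw [toAdd_pow, toAdd_mul, toAdd_inv, toAdd_ofAdd]
        simp only [nsmul_eq_mul, mul_one]
        omega
    · refine ⟨List.replicate _ (Multiplicative.ofAdd (-1)), List.length_replicate, ?_, ?_⟩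
      · intro s hs
        rw [List.eq_of_mem_replicate hs]
        simp [S₀]
      · rw [List.prod_replicate]
        apply Multiplicative.toAdd.injective
        rw [toAdd_pow, toAdd_mul, toAdd_inv, toAdd_ofAdd]
        simp only [nsmul_eq_mul, mul_neg, mul_one]
        omega
  apply le_antisymm (Nat.sInf_le hmem)
  obtain ⟨l, hl1, hl2, hl3⟩ := Nat.sInf_mem (⟨_, hmem⟩ : Set.Nonempty _)
  change _ ≤ wordDist S₀ x y
  change l.length = wordDist S₀ x y at hl1
  rw [← hl1]
  have h := list_bound l hl2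
  rw [hl3, toAdd_mul, toAdd_inv, abs_le] at h
  omega

lemma le_d₀ (x y : Z) : ((x.toAdd - y.toAdd).natAbs : ℝ) ≤ d₀ x y := by
  rw [Nat.cast_natAbs, Int.cast_abs]
  exact (le_ρ _).trans (Int.le_ceil _)

lemma d₀_le (x y : Z) : d₀ x y ≤ 2 * ((x.toAdd - y.toAdd).natAbs : ℝ) := by
  have h : ⌈ρ ((x.toAdd - y.toAdd : ℤ) : ℝ)⌉ ≤ 2 * |x.toAdd - y.toAdd| := by
    rw [Int.ceil_le]
    push_cast
    have := ρ_le ((x.toAdd - y.toAdd : ℤ) : ℝ)
    push_cast at this
    exact this
  rw [Nat.cast_natAbs]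
  unfold d₀
  exact_mod_cast h

lemma admissible : IsAdmissible d₀ where
  nonneg x y := (Nat.cast_nonneg _).trans (le_d₀ x y)
  eq_zero_iff x y := by
    constructor
    · intro h
      have h1 := le_d₀ x y
      rw [h] at h1
      have h2 : (x.toAdd - y.toAdd).natAbs = 0 := by
        exact_mod_cast le_antisymm h1 (Nat.cast_nonneg _)
      apply Multiplicative.toAdd.injective
      omega
    · rintro rfl
      have h1 := d₀_le x x
      have h2 := le_d₀ x x
      simp only [sub_self, Int.natAbs_zero, Nat.cast_zero, mul_zero] at h1 h2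
      exact le_antisymm h1 h2
  symm x y := by
    unfold d₀
    rw [← ρ_neg]
    push_cast
    rw [neg_sub]
  triangle x y z := by
    unfold d₀
    have h : ⌈ρ ((x.toAdd - z.toAdd : ℤ) : ℝ)⌉ ≤
        ⌈ρ ((x.toAdd - y.toAdd : ℤ) : ℝ)⌉ + ⌈ρ ((y.toAdd - z.toAdd : ℤ) : ℝ)⌉ := by
      have e : ((x.toAdd - z.toAdd : ℤ) : ℝ) =
          ((x.toAdd - y.toAdd : ℤ) : ℝ) + ((y.toAdd - z.toAdd : ℤ) : ℝ) := by push_cast; ring
      rw [e]
      exact (Int.ceil_mono (ρ_add _ _)).trans (Int.ceil_add_le _ _)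
    exact_mod_cast h
  integer x y := ⟨_, rfl⟩
  invariant g x y := by
    unfold d₀
    rw [toAdd_mul, toAdd_mul, add_sub_add_left_eq_sub]
  proper x r := by
    have h : {y | d₀ x y ≤ r} ⊆ Multiplicative.toAdd ⁻¹' (Set.Icc (x.toAdd - ⌈r⌉) (x.toAdd + ⌈r⌉)) := by
      intro y hy
      have h1 := (le_d₀ x y).trans hy
      have h2 : ((x.toAdd - y.toAdd).natAbs : ℤ) ≤ ⌈r⌉ := by
        have : (((x.toAdd - y.toAdd).natAbs : ℤ) : ℝ) ≤ (⌈r⌉ : ℝ) := by
          rw [Int.cast_natCast]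
          exact h1.trans (Int.le_ceil r)
        exact Int.cast_le.1 this
      constructor <;> omega
    exact ((Set.finite_Icc _ _).preimage Multiplicative.toAdd.injective.injOn).subset h

lemma quasiCayley : IsQuasiCayley S₀ d₀ := by
  refine ⟨2, by norm_num, fun x y => ?_⟩
  rw [wordDist_eq]
  have h1 := le_d₀ x y
  have h2 := d₀_le x y
  have h3 : (0 : ℝ) ≤ (x.toAdd - y.toAdd).natAbs := Nat.cast_nonneg _
  constructor <;> linarith

lemma functional : IsMetricFunctional d₀ (fun _ => 0) := by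
  refine ⟨fun j => Multiplicative.ofAdd (4 ^ (j + 2) + 2 ^ j : ℤ), ?_, ?_⟩
  · intro F
    have hinj : Function.Injective
        (fun j : ℕ => (Multiplicative.ofAdd (4 ^ (j + 2) + 2 ^ j : ℤ) : Z)) := by
      apply StrictMono.injective (β := ℤ) (f := fun j : ℕ => (4 ^ (j + 2) + 2 ^ j : ℤ))
      intro i j hij
      have h1 : (4 : ℤ) ^ (i + 2) < 4 ^ (j + 2) := pow_lt_pow_right₀ (by norm_num) (by omega)
      have h2 : (2 : ℤ) ^ i < 2 ^ j := pow_lt_pow_right₀ (by norm_num) hij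
      simp only
      linarith
    have hfin : {j : ℕ | (Multiplicative.ofAdd (4 ^ (j + 2) + 2 ^ j : ℤ) : Z) ∈ F}.Finite :=
      F.finite_toSet.preimage hinj.injOn
    have := hfin.compl_mem_cofinite
    rw [Nat.cofinite_eq_atTop] at this
    exact this
  · intro y
    apply tendsto_const_nhds.congr'
    -- eventually `|y| ≤ 2 ^ j - 1`
    obtain ⟨N, hN⟩ := pow_unbounded_of_one_lt (|y.toAdd| + 1) (show (1 : ℤ) < 2 by norm_num)
    filter_upwards [eventually_ge_atTop N] with j hj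
    have h1 : |y.toAdd| + 1 < 2 ^ j :=
      hN.trans_le (pow_le_pow_right₀ (by norm_num) hj)
    have hval : ∀ z : ℤ, |z| + 1 < 2 ^ j →
        ρ (((4 ^ (j + 2) + 2 ^ j : ℤ) - z : ℤ) : ℝ) = 4 ^ (j + 2) + 2 ^ (j + 2) := by
      intro z hz
      have hz' : |(z : ℝ)| + 1 < 2 ^ j := by exact_mod_cast hz
      have hz1 := abs_le.1 (show |(z : ℝ)| ≤ 2 ^ j - 1 by linarith)
      apply ρ_flat
      · push_cast; linarith [hz1.2]
      · push_cast
        have : (2 : ℝ) ^ (j + 2) = 4 * 2 ^ j := by rw [pow_add]; norm_num; ring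
        rw [this]
        linarith [hz1.1]
    have e1 : d₀ (Multiplicative.ofAdd (4 ^ (j + 2) + 2 ^ j : ℤ)) y =
        ((⌈((4 : ℝ) ^ (j + 2) + 2 ^ (j + 2))⌉ : ℤ) : ℝ) := by
      unfold d₀
      rw [toAdd_ofAdd, hval _ h1]
    have e2 : d₀ (Multiplicative.ofAdd (4 ^ (j + 2) + 2 ^ j : ℤ)) 1 =
        ((⌈((4 : ℝ) ^ (j + 2) + 2 ^ (j + 2))⌉ : ℤ) : ℝ) := by
      unfold d₀
      rw [toAdd_ofAdd, toAdd_one, hval 0 (lt_of_le_of_lt (by simp) h1)]
    rw [e1, e2, sub_self]

lemma closure_S₀ : Subgroup.closure (S₀ : Set Z) = ⊤ := by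
  rw [eq_top_iff]
  rintro g -
  have h1 : Multiplicative.ofAdd (1 : ℤ) ∈ Subgroup.closure (S₀ : Set Z) :=
    Subgroup.subset_closure (by simp [S₀])
  have e : g = (Multiplicative.ofAdd (1 : ℤ)) ^ g.toAdd := by
    apply Multiplicative.toAdd.injective
    rw [toAdd_zpow, toAdd_ofAdd, smul_eq_mul, mul_one]
  rw [e]
  exact zpow_mem h1 _

/-- **MP_25f285_al, Q1 is false.**  Some integer valued, left-invariant, proper metric on a
finitely generated group (namely `ℤ`) that is quasi-isometric to a Cayley metric has a bounded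
metric-functional (even the zero function). -/
theorem result : ¬ ∀ (G : Type) [Group G] (S : Finset G),
    Subgroup.closure (S : Set G) = ⊤ → (∀ s ∈ S, s⁻¹ ∈ S) →
    ∀ d : G → G → ℝ, IsAdmissible d → IsQuasiCayley S d →
    ∀ f : G → ℝ, IsMetricFunctional d f → ¬ ∃ B : ℝ, ∀ y, |f y| ≤ B := by
  intro h
  refine h Z S₀ closure_S₀ ?_ d₀ admissible quasiCayley _ functional ⟨0, fun y => by simp⟩
  intro s hs
  simp only [S₀, Finset.mem_insert, Finset.mem_singleton] at hs ⊢
  rcases hs with rfl | rfl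
  · right; rfl
  · left; rfl

end Pool.Agent.Results.MP_25f285_al.BoundedFunctional
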